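import Pool.Agent.H52.XH.Targets
import Pool.Agent.H1.HD9.Y5

/-!
# TB: definability of fullness
-/

open Ordinal Cardinal Order Set
open scoped ZFSet

universe u

namespace Pool.Agent.H11.XH

open _root_.HD Pool.Agent.H54.WM Pool.Agent.H52.XH

theorem od_HV (β : Ordinal.{u}) : OD (HV β) := by
  refine OD.of_mem (P := fun v => v 0 ∈ V_ β ∧ HOD (v 0)) ?_ fun v => ?_
  · exact DZ.od (R := fun b v => v 0 ∈ b ∧ HOD (v 0)) (Pool.Agent.H1.HD9.Y5.od_V β)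
      ((DZ.mem 1 0).and (Pool.Agent.H3.HD.DM.dz_hod 1))
  · rw [mem_HV]

theorem dz_QI (β : Ordinal.{u}) {Q : ZFSet.{u}} (hQ : HOD Q) (i j : ℕ) :
    DZ.{u} fun v => v i = QI β Q (v j) := by
  refine DZ.congr (P := fun v => ∀ x, x ∈ v i ↔ (x ∈ HV β ∧ ∃ a ∈ v j, ZFSet.pair a x ∈ Q))
    ?_ fun v => ?_
  · refine DZ.od (R := fun W v => ∀ x, x ∈ v i ↔ (x ∈ W ∧ ∃ a ∈ v j, ZFSet.pair a x ∈ Q))
      (od_HV β) ?_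
    refine DZ.od (R := fun q v => ∀ x, x ∈ v (i + 1) ↔
      (x ∈ v 0 ∧ ∃ a ∈ v (j + 1), ZFSet.pair a x ∈ q)) hQ.od ?_
    refine DZ.all (R := fun x v => x ∈ v (i + 2) ↔
      (x ∈ v 1 ∧ ∃ a ∈ v (j + 2), ZFSet.pair a x ∈ v 0)) ?_
    exact (DZ.mem 0 (i + 3)).iff ((DZ.mem 0 2).and
      (DZ.exMem (R := fun a v => ZFSet.pair a (v 0) ∈ v 1) (j + 3) (loc_pmem 0 1 2).dz))
  · constructor
    · intro h x
      rw [h, mem_QI]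
    · intro h
      ext x
      rw [h, mem_QI]

theorem cex_iff {X z : ZFSet.{u}} : Cex X z ↔ HOD z ∧ z ⊆ X ∧
    (∃ r ∈ X, ∃ V, (r.IsOrdinal ∧ V = V_ r.rank) ∧ z ⊆ V) ∧
    ∀ x ∈ X, ∃ w ∈ X, ¬ (w ∈ x ↔ w ∈ z) := by
  constructor
  · intro h
    obtain ⟨r, hr1, hr2⟩ := h.bd
    exact ⟨h.hod, h.sub, ⟨r.toZFSet, hr1, V_ r, ⟨ZFSet.isOrdinal_toZFSet r, by
      rw [rank_toZFSet]⟩, hr2⟩, h.ne⟩
  · rintro ⟨h1, h2, ⟨r, hr, V, ⟨ho, rfl⟩, hz⟩, h4⟩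
    refine ⟨h1, h2, ⟨r.rank, ?_, hz⟩, h4⟩
    rw [ho.toZFSet_rank_eq]
    exact hr

theorem dz_Cex (i j : ℕ) : DZ.{u} fun v => Cex (v i) (v j) := by
  refine DZ.congr (P := fun v => HOD (v j) ∧ v j ⊆ v i ∧
    (∃ r ∈ v i, ∃ V, (r.IsOrdinal ∧ V = V_ r.rank) ∧ v j ⊆ V) ∧
    ∀ x ∈ v i, ∃ w ∈ v i, ¬ (w ∈ x ↔ w ∈ v j)) ?_ fun v => cex_iff
  refine (Pool.Agent.H3.HD.DM.dz_hod j).and ((Loc.sub j i).dz.and (DZ.and ?_ ?_))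
  · refine DZ.exMem (R := fun r v => ∃ V, (r.IsOrdinal ∧ V = V_ r.rank) ∧ v j ⊆ V) i ?_
    refine DZ.ex (R := fun V v => ((v 0).IsOrdinal ∧ V = V_ (v 0).rank) ∧ v (j + 1) ⊆ V) ?_
    exact (loc_V 1 0).dz.and (Loc.sub (j + 2) 0).dz
  · refine DZ.allMem (R := fun x v => ∃ w ∈ v i, ¬ (w ∈ x ↔ w ∈ v j)) i ?_
    refine DZ.exMem (R := fun w v => ¬ (w ∈ v 0 ↔ w ∈ v (j + 1))) (i + 1) ?_
    exact ((DZ.mem 0 1).iff (DZ.mem 0 (j + 2))).not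

theorem dz_CexQ (β : Ordinal.{u}) {Q : ZFSet.{u}} (hQ : HOD Q) (i j : ℕ) :
    DZ.{u} fun v => Cex (QI β Q (v i)) (v j) := by
  refine DZ.congr (P := fun v => ∃ X, X = QI β Q (v i) ∧ Cex X (v j)) ?_ fun v => ?_
  · refine DZ.ex (R := fun X v => X = QI β Q (v i) ∧ Cex X (v j)) ?_
    exact (dz_QI β hQ 0 (i + 1)).and (dz_Cex 0 (j + 1))
  · constructor
    · intro h
      exact ⟨_, rfl, h⟩
    · rintro ⟨X, rfl, h⟩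
      exact h

theorem pf_TB : T_TB.{u} := by
  intro β Q hQ
  refine ⟨dz_CexQ β hQ 0 1, ?_, dz_QI β hQ 1 0, ?_⟩
  · refine DZ.all (R := fun z v => ¬ Cex (QI β Q (v 0)) z) ?_
    exact (dz_CexQ β hQ 1 0).not
  · intro s hs
    refine hod_iff.2 ⟨?_, fun y hy => (mem_HV.1 (mem_QI.1 hy).1).2⟩
    refine OD.of_dz ?_
    exact DZ.od (R := fun b v => v 0 = QI β Q b) hs.od (dz_QI β hQ 1 0)

end Pool.Agent.H11.XH
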